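import Mathlib
import Pool.Agent.Lib.helper22.Selector

set_option autoImplicit false

namespace Pool.Agent.Results.MP_04ddd8_lc.Counterexample

open Set

theorem result : ∃ N : Set (Set ℝ),
    (∀ A ∈ N, A ⊆ Icc (0 : ℝ) 1) ∧
    (∀ J : Set ℝ, J.OrdConnected → J ⊆ Icc (0 : ℝ) 1 → J ∈ N) ∧
    (∀ A ∈ N, Icc (0 : ℝ) 1 \ A ∈ N) ∧
    (∀ f : ℕ → Set ℝ, (∀ n, f n ∈ N) → (⋃ n, f n) ∈ N) ∧
    (∀ P : Set (Set ℝ), (∀ p ∈ P, p.Nontrivial) → P.PairwiseDisjoint id →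
      ⋃₀ P = Icc (0 : ℝ) 1 → ∃ S ∈ N, ∀ p ∈ P, ∃! x, x ∈ S ∩ p) ∧
    N ≠ {A | A ⊆ Icc (0 : ℝ) 1} := by
  obtain ⟨N, h1, h2, h3, h4, h5, A, h6, h7⟩ := Pool.Agent.Lib.helper22.Selector.main
  exact ⟨N, h1, h2, h3, h4, h5, fun h => h7 (h ▸ h6)⟩

end Pool.Agent.Results.MP_04ddd8_lc.Counterexample
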